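import Mathlib

set_option autoImplicit false

namespace Pool.Agent.Results.MP_fc6768_gt.Metric

open Set Filter Topology
open scoped Cardinal

/-- An open `ω`-cover. -/
def IsOmega {Z : Type} [TopologicalSpace Z] (𝒰 : Set (Set Z)) : Prop :=
  (∀ U ∈ 𝒰, IsOpen U) ∧ ⋃₀ 𝒰 = univ ∧ univ ∉ 𝒰 ∧ ∀ F : Set Z, F.Finite → ∃ U ∈ 𝒰, F ⊆ U

/-- An open `γ`-cover. -/
def IsGamma {Z : Type} [TopologicalSpace Z] (𝒰 : Set (Set Z)) : Prop :=
  (∀ U ∈ 𝒰, IsOpen U) ∧ ⋃₀ 𝒰 = univ ∧ 𝒰.Infinite ∧ ∀ z : Z, {U | U ∈ 𝒰 ∧ z ∉ U}.Finite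

/-- `S₁(Γ, Ω)`. -/
def S1GammaOmega (Z : Type) [TopologicalSpace Z] : Prop :=
  ∀ 𝒰 : ℕ → Set (Set Z), (∀ n, IsGamma (𝒰 n)) →
    ∃ U : ℕ → Set Z, (∀ n, U n ∈ 𝒰 n) ∧ IsOmega (range U)

/-- The `γ`-property `S₁(Ω, Γ)`. -/
def GammaProperty (Z : Type) [TopologicalSpace Z] : Prop :=
  ∀ 𝒰 : ℕ → Set (Set Z), (∀ n, IsOmega (𝒰 n)) →
    ∃ U : ℕ → Set Z, (∀ n, U n ∈ 𝒰 n) ∧ IsGamma (range U)

/-- Productively `S₁(Γ, Ω)` for (infinite) metric spaces. -/
def Productive (S : Type) [TopologicalSpace S] : Prop :=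
  ∀ (M : Type) [MetricSpace M] [Infinite M], S1GammaOmega M → S1GammaOmega (S × M)

/-- `κ ≤ pr(S₁(Γ, Ω))`: every (infinite Tychonoff) space of size `< κ` is productively
`S₁(Γ, Ω)` for metric spaces. -/
def LePr (κ : Cardinal.{0}) : Prop :=
  ∀ (S : Type) [TopologicalSpace S] [T35Space S] [Infinite S], #S < κ → Productive S

/-- The finite subsets of `ω`, as points of the Cantor space `ℕ → Bool`. -/
def FinSets : Set (ℕ → Bool) := {x | {i | x i = true}.Finite}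

/-- The increasing enumeration of a subset of `ω`. -/
noncomputable def enum (x : ℕ → Bool) : ℕ → ℕ := Nat.nth (fun i => x i = true)

/-- `κ`-fin-unbounded sets; `d` ranges over increasing enumerations of infinite sets. -/
def FinUnbounded (κ : Cardinal.{0}) (X : Set (ℕ → Bool)) : Prop :=
  (∀ x ∈ X, {i | x i = true}.Infinite) ∧ κ ≤ #X ∧
    ∀ d : ℕ → ℕ, StrictMono d → ∃ S ⊆ X, #S < κ ∧
      ∀ F : Set (ℕ → Bool), F.Finite → F.Nonempty → F ⊆ X \ S →
        ∃ᶠ n in atTop, ∀ x ∈ F, d n ≤ enum x n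

lemma exists_strictMono_ge (h : ℕ → ℕ) : ∃ d : ℕ → ℕ, StrictMono d ∧ ∀ n, h n ≤ d n := by
  refine ⟨fun n => n + ∑ i ∈ Finset.range (n + 1), h i, strictMono_nat_of_lt_succ fun n => ?_,
    fun n => ?_⟩
  · simp only [Finset.sum_range_succ _ (n + 1)]
    omega
  · simp only [Finset.sum_range_succ]
    omega

lemma L1 {M : Type} [TopologicalSpace M] (h : S1GammaOmega M) (W : ℕ → ℕ → Set M)
    (ho : ∀ n m, IsOpen (W n m)) (he : ∀ n z, ∀ᶠ m in atTop, z ∈ W n m) :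
    ∃ g : ℕ → ℕ, ∀ E : Set M, E.Finite → ∃ n, E ⊆ W n (g n) := by
  by_cases hu : ∃ n m, W n m = univ
  · obtain ⟨n, m, hnm⟩ := hu
    exact ⟨fun _ => m, fun E _ => ⟨n, by rw [hnm]; exact subset_univ _⟩⟩
  push Not at hu
  have hfin : ∀ n z, {m | z ∉ W n m}.Finite := fun n z => by
    have := he n z
    rw [← Nat.cofinite_eq_atTop] at this
    exact this
  have hG : ∀ n, IsGamma (range (W n)) := by
    intro n
    refine ⟨by rintro _ ⟨m, rfl⟩; exact ho n m, ?_, ?_, fun z => ?_⟩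
    · refine eq_univ_of_forall fun z => ?_
      obtain ⟨m, hm⟩ := (he n z).exists
      exact ⟨_, ⟨m, rfl⟩, hm⟩
    · intro hf
      have : Finite (range (W n)) := hf
      obtain ⟨V, hV⟩ := Finite.exists_infinite_fiber (fun m => (⟨W n m, m, rfl⟩ : range (W n)))
      obtain ⟨V, m, rfl⟩ := V
      obtain ⟨z, hz⟩ := (ne_univ_iff_exists_notMem _).1 (hu n m)
      refine (Set.infinite_coe_iff.1 hV) ((hfin n z).subset fun k hk => ?_)
      have hk' : W n k = W n m := congrArg Subtype.val (mem_singleton_iff.1 hk)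
      simpa [hk'] using hz
    · refine ((hfin n z).image (W n)).subset ?_
      rintro _ ⟨⟨m, rfl⟩, hm⟩
      exact ⟨m, hm, rfl⟩
  obtain ⟨U, hU, hO⟩ := h _ hG
  choose g hg using hU
  refine ⟨g, fun E hE => ?_⟩
  obtain ⟨_, ⟨n, rfl⟩, hn⟩ := hO.2.2.2 E hE
  exact ⟨n, by rw [hg]; exact hn⟩

lemma L2 {Y : Type} [TopologicalSpace Y] [T1Space Y] [Infinite Y] (h : GammaProperty Y)
    (𝒱 : ℕ → Set (Set Y)) (ho : ∀ j, ∀ V ∈ 𝒱 j, IsOpen V)
    (he : ∀ j, ∀ E : Set Y, E.Finite → ∃ V ∈ 𝒱 j, E ⊆ V) :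
    ∃ V : ℕ → Set Y, (∀ j, V j ∈ 𝒱 j) ∧ ∀ y, ∀ᶠ j in atTop, y ∈ V j := by
  let z := Infinite.natEmbedding Y
  let 𝒲 : ℕ → Set (Set Y) := fun j =>
    {W | ∃ V ∈ 𝒱 j, ∃ m, j ≤ m ∧ (∀ i < j, z i ∈ V) ∧ W = V \ {z m}}
  have key : ∀ j, ∀ E : Set Y, E.Finite → ∃ W ∈ 𝒲 j, E ⊆ W := by
    intro j E hE
    obtain ⟨V, hV, hEV⟩ := he j (E ∪ z '' {i | i < j}) (hE.union ((finite_lt_nat j).image _))
    have h1 : (z ⁻¹' E ∪ {i | i < j}).Finite :=
      (hE.preimage z.injective.injOn).union (finite_lt_nat j)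
    obtain ⟨m, hm⟩ := h1.infinite_compl.nonempty
    simp only [mem_compl_iff, mem_union, mem_preimage, mem_setOf_eq, not_or, not_lt] at hm
    refine ⟨V \ {z m}, ⟨V, hV, m, hm.2, fun i hi => hEV (Or.inr ⟨i, hi, rfl⟩), rfl⟩, ?_⟩
    intro e he'
    refine ⟨hEV (Or.inl he'), ?_⟩
    rintro rfl
    exact hm.1 he'
  have hW : ∀ j, IsOmega (𝒲 j) := by
    intro j
    refine ⟨?_, ?_, ?_, key j⟩
    · rintro _ ⟨V, hV, m, -, -, rfl⟩
      exact (ho j V hV).sdiff isClosed_singleton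
    · refine eq_univ_of_forall fun y => ?_
      obtain ⟨W, hW, hy⟩ := key j {y} (finite_singleton y)
      exact ⟨W, hW, hy rfl⟩
    · rintro ⟨V, hV, m, -, -, hh⟩
      have : z m ∈ V \ {z m} := hh ▸ mem_univ _
      exact this.2 rfl
  obtain ⟨W, hW1, hW2⟩ := h 𝒲 hW
  choose V hV m hm hz hWV using hW1
  refine ⟨V, hV, fun y => ?_⟩
  rw [← Nat.cofinite_eq_atTop]
  have hfib : ∀ j, {j' | W j' = W j}.Finite := by
    intro j
    refine (finite_le_nat (m j)).subset fun j' hj' => ?_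
    by_contra hlt
    simp only [mem_setOf_eq, not_le] at hlt hj'
    have h1 : z (m j) ∈ W j' := by
      rw [hWV j']
      refine ⟨hz j' _ hlt, fun hh => ?_⟩
      have := z.injective (mem_singleton_iff.1 hh)
      have := hm j'
      omega
    rw [hj', hWV j] at h1
    exact h1.2 rfl
  have h2 : (⋃ U ∈ {U | U ∈ range W ∧ y ∉ U}, {j' | W j' = U}).Finite := by
    refine (hW2.2.2.2 y).biUnion ?_
    rintro _ ⟨⟨j, rfl⟩, -⟩
    exact hfib j
  refine h2.subset fun j hj => ?_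
  simp only [mem_iUnion]
  refine ⟨W j, ⟨⟨j, rfl⟩, fun hy => hj ?_⟩, rfl⟩
  rw [hWV j] at hy
  exact hy.1

lemma gamma_s1 {Y : Type} [TopologicalSpace Y] [T1Space Y] [Infinite Y] (h : GammaProperty Y) :
    S1GammaOmega Y := by
  intro 𝒰 h𝒰
  obtain ⟨V, hV, hy⟩ := L2 h (fun j => 𝒰 j \ {univ}) (fun j V hV => (h𝒰 j).1 V hV.1) (by
    intro j E hE
    have h1 : ((⋃ y ∈ E, {U | U ∈ 𝒰 j ∧ y ∉ U}) ∪ {univ}).Finite :=
      (hE.biUnion fun y _ => (h𝒰 j).2.2.2 y).union (finite_singleton _)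
    obtain ⟨V, hV1, hV2⟩ := ((h𝒰 j).2.2.1.diff h1).nonempty
    refine ⟨V, ⟨hV1, fun hh => hV2 (Or.inr hh)⟩, fun y hy => ?_⟩
    by_contra hn
    exact hV2 (Or.inl (mem_biUnion hy ⟨hV1, hn⟩)))
  refine ⟨V, fun n => (hV n).1, ?_, ?_, ?_, fun E hE => ?_⟩
  · rintro _ ⟨n, rfl⟩
    exact (h𝒰 n).1 _ (hV n).1
  · refine eq_univ_of_forall fun y => ?_
    obtain ⟨n, hn⟩ := (hy y).exists
    exact ⟨_, ⟨n, rfl⟩, hn⟩
  · rintro ⟨n, hn⟩
    exact (hV n).2 hn
  · obtain ⟨n, hn⟩ := ((eventually_all_finite hE).2 fun y _ => hy y).exists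
    exact ⟨_, ⟨n, rfl⟩, fun y hy => hn y hy⟩

/-- Selection for small discrete index sets. -/
def Sel (κ : Cardinal.{0}) (Y : Type) [TopologicalSpace Y] : Prop :=
  ∀ (D : Type) [Infinite D], #D < κ → ∀ W : D → ℕ → ℕ → Set Y, (∀ a n m, IsOpen (W a n m)) →
    (∀ a n y, ∀ᶠ m in atTop, y ∈ W a n m) →
      ∃ g : ℕ → ℕ, ∀ a, ∀ E : Set Y, E.Finite → ∃ n, E ⊆ W a n (g n)

lemma sel_of {κ : Cardinal.{0}} {Y : Type} [TopologicalSpace Y]
    (h : ∀ (D : Type) [TopologicalSpace D] [DiscreteTopology D] [Infinite D], #D < κ →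
      S1GammaOmega (D × Y)) : Sel κ Y := by
  intro D _ hD W ho he
  letI : TopologicalSpace D := ⊥
  haveI : DiscreteTopology D := ⟨rfl⟩
  obtain ⟨g, hg⟩ := L1 (h D hD) (fun n m => {p | p.2 ∈ W p.1 n m}) (by
    intro n m
    have : {p : D × Y | p.2 ∈ W p.1 n m} = ⋃ a, {a} ×ˢ W a n m := by
      ext ⟨a, y⟩
      simp
    rw [this]
    exact isOpen_iUnion fun a => (isOpen_discrete _).prod (ho a n m)) (fun n p => he p.1 n p.2)
  refine ⟨g, fun a E hE => ?_⟩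
  obtain ⟨n, hn⟩ := hg ((fun y => (a, y)) '' E) (hE.image _)
  exact ⟨n, fun y hy => hn ⟨y, hy, rfl⟩⟩

lemma T_finite (n : ℕ) : {t : ℕ → Bool | ∀ i, n ≤ i → t i = false}.Finite := by
  refine Finite.of_finite_image (f := fun (t : ℕ → Bool) (i : Fin n) => t i) (toFinite _) ?_
  intro t ht s hs h
  funext i
  by_cases hi : i < n
  · exact congrFun h ⟨i, hi⟩
  · rw [ht i (not_lt.1 hi), hs i (not_lt.1 hi)]

lemma T_sub (n : ℕ) : {t : ℕ → Bool | ∀ i, n ≤ i → t i = false} ⊆ FinSets := by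
  intro t ht
  refine (finite_lt_nat n).subset fun i hi => ?_
  by_contra h
  have := ht i (not_lt.1 h)
  simp only [mem_setOf_eq] at hi
  rw [hi] at this
  exact Bool.noConfusion this

lemma tube {Y : Type} [TopologicalSpace Y] {U : Set ((ℕ → Bool) × Y)} (hU : IsOpen U) (n : ℕ)
    {E : Set Y} (hE : E.Finite)
    (h : ∀ t : ℕ → Bool, (∀ i, n ≤ i → t i = false) → ∀ y ∈ E, (t, y) ∈ U) :
    ∃ (l : ℕ) (V : Set Y), IsOpen V ∧ E ⊆ V ∧
      ∀ x : ℕ → Bool, (∀ i, n ≤ i → i < l → x i = false) → ∀ y ∈ V, (x, y) ∈ U := by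
  obtain ⟨G, V, hG, hV, hTG, hEV, hGV⟩ := generalized_tube_lemma (T_finite n).isCompact
    hE.isCompact hU (by rintro ⟨t, y⟩ ⟨ht, hy⟩; exact h t ht y hy)
  obtain ⟨l, hl⟩ := exists_subset_nhds_of_compactSpace
    (V := fun l : ℕ => {x : ℕ → Bool | ∀ i, n ≤ i → i < l → x i = false}) (U := G)
    (by
      intro a b
      refine ⟨max a b, fun x hx i h1 h2 => hx i h1 (by omega), fun x hx i h1 h2 => hx i h1 (by omega)⟩)
    (by
      intro l
      have : {x : ℕ → Bool | ∀ i, n ≤ i → i < l → x i = false} =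
          ⋂ i, ⋂ (_ : n ≤ i), ⋂ (_ : i < l), (fun x : ℕ → Bool => x i) ⁻¹' {false} := by
        ext x
        simp
      rw [this]
      exact isClosed_iInter fun i => isClosed_iInter fun _ => isClosed_iInter fun _ =>
        (isClosed_discrete _).preimage (continuous_apply i))
    (by
      intro x hx
      refine hG.mem_nhds (hTG fun i hi => ?_)
      exact mem_iInter.1 hx (i + 1) i hi (Nat.lt_succ_self i))
  exact ⟨l, V, hV, hEV, fun x hx y hy => hGV ⟨hl hx, hy⟩⟩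

lemma gap (q : ℕ → ℕ) (hq : StrictMono q) (F : Set (ℕ → Bool)) (hF : F.Finite)
    (hinf : ∀ x ∈ F, {i | x i = true}.Infinite) (i : ℕ) (hi : hF.toFinset.card ≤ i)
    (h : ∀ x ∈ F, q (i + i * i + 1) ≤ enum x i) :
    ∃ k, i ≤ k ∧ ∀ x ∈ F, ∀ s, q k ≤ s → s < q (k + 1) → x s = false := by
  by_contra hc
  push Not at hc
  have h1 : ∀ k ∈ Finset.Icc i (i + i * i), ∃ p ∈ hF.toFinset ×ˢ Finset.range i,
      q k ≤ enum p.1 p.2 ∧ enum p.1 p.2 < q (k + 1) := by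
    intro k hk
    rw [Finset.mem_Icc] at hk
    obtain ⟨x, hx, s, hs1, hs2, hs3⟩ := hc k hk.1
    have hs4 : x s = true := by simpa using hs3
    have hr : s ∈ range (Nat.nth fun i => x i = true) := by
      rw [Nat.range_nth_of_infinite (hinf x hx)]
      exact hs4
    obtain ⟨r, rfl⟩ := hr
    have h2 : q (k + 1) ≤ q (i + i * i + 1) := hq.monotone (by omega)
    have h3 : r < i := (Nat.nth_lt_nth (hinf x hx)).1 (hs2.trans_le (h2.trans (h x hx)))
    exact ⟨(x, r), Finset.mem_product.2 ⟨hF.mem_toFinset.2 hx, Finset.mem_range.2 h3⟩, hs1, hs2⟩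
  choose! p hp hp1 hp2 using h1
  have := Finset.card_le_card_of_injOn p (fun k hk => hp k hk) (by
    intro k hk k' hk' hkk
    have a1 := hp1 k hk
    have a2 := hp2 k hk
    have a3 := hp1 k' hk'
    have a4 := hp2 k' hk'
    rw [hkk] at a1 a2
    have b1 : k < k' + 1 := hq.lt_iff_lt.1 (a1.trans_lt a4)
    have b2 : k' < k + 1 := hq.lt_iff_lt.1 (a3.trans_lt a2)
    omega)
  rw [Finset.card_product, Finset.card_range, Nat.card_Icc] at this
  have h5 : hF.toFinset.card * i ≤ i * i := Nat.mul_le_mul_right i hi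
  omega

lemma step {κ : Cardinal.{0}} (hκ : κ.IsRegular) {X : Set (ℕ → Bool)} (hX : FinUnbounded κ X)
    {Y : Type} [TopologicalSpace Y] [T1Space Y] [Infinite Y] (hY : GammaProperty Y)
    (hsel : Sel κ Y) (U : ℕ → ℕ → Set ((ℕ → Bool) × Y)) (ho : ∀ n m, IsOpen (U n m))
    (he : ∀ n, ∀ x ∈ X ∪ FinSets, ∀ y, ∀ᶠ m in atTop, (x, y) ∈ U n m)
    (S : Set (ℕ → Bool)) (hS1 : S ⊆ X ∪ FinSets) (hS2 : S.Infinite) (hS3 : #S < κ) :
    ∃ (g : ℕ → ℕ) (S' : Set (ℕ → Bool)), S' ⊆ X ∧ #S' < κ ∧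
      ∀ F ⊆ S, F.Finite → ∀ F' ⊆ X \ S', F'.Finite → ∀ E : Set Y, E.Finite →
        ∃ n, ∀ x ∈ F ∪ F', ∀ y ∈ E, (x, y) ∈ U n (g n) := by
  classical
  haveI : Infinite S := hS2.to_subtype
  have hD : #(Finset S) < κ := by rw [Cardinal.mk_finset_of_infinite]; exact hS3
  let R : Finset S → ℕ → Set (ℕ → Bool) := fun a n =>
    Subtype.val '' (a : Set S) ∪ {t : ℕ → Bool | ∀ i, n ≤ i → t i = false}
  have hRf : ∀ a n, (R a n).Finite := fun a n => (a.finite_toSet.image _).union (T_finite n)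
  have hRs : ∀ a n, R a n ⊆ X ∪ FinSets := by
    rintro a n x (⟨x, -, rfl⟩ | hx)
    · exact hS1 x.2
    · exact Or.inr (T_sub n hx)
  have hop : ∀ (K : Set (ℕ → Bool)), K.Finite → ∀ n m, IsOpen {y | ∀ x ∈ K, (x, y) ∈ U n m} := by
    intro K hK n m
    have : {y | ∀ x ∈ K, (x, y) ∈ U n m} = ⋂ x ∈ K, (fun y => (x, y)) ⁻¹' U n m := by
      ext y
      simp
    rw [this]
    exact hK.isOpen_biInter fun x _ => (ho n m).preimage (by fun_prop)
  have h1 : ∀ p : ℕ, ∃ g : ℕ → ℕ, ∀ a : Finset S, ∀ E : Set Y, E.Finite → ∃ i,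
      E ⊆ {y | ∀ x ∈ R a (Nat.pair p i), (x, y) ∈ U (Nat.pair p i) (g i)} := fun p =>
    hsel (Finset S) hD (fun a i m => {y | ∀ x ∈ R a (Nat.pair p i), (x, y) ∈ U (Nat.pair p i) m})
      (fun a i m => hop _ (hRf _ _) _ _)
      (fun a i y => (eventually_all_finite (hRf _ _)).2 fun x hx => he _ x (hRs _ _ hx) y)
  choose G hG using h1
  let g : ℕ → ℕ := fun n => G n.unpair.1 n.unpair.2
  have hg : ∀ (a : Finset S) (p : ℕ) (E : Set Y), E.Finite → ∃ n, p ≤ n ∧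
      ∀ x ∈ R a n, ∀ y ∈ E, (x, y) ∈ U n (g n) := by
    intro a p E hE
    obtain ⟨i, hi⟩ := hG p a E hE
    refine ⟨Nat.pair p i, Nat.left_le_pair p i, fun x hx y hy => ?_⟩
    have := hi hy x hx
    simpa [g] using this
  have h2 : ∀ a : Finset S, ∃ S' ⊆ X, #S' < κ ∧ ∀ F' ⊆ X \ S', F'.Finite → ∀ E : Set Y,
      E.Finite → ∃ n, ∀ x ∈ Subtype.val '' (a : Set S) ∪ F', ∀ y ∈ E, (x, y) ∈ U n (g n) := by
    intro a
    obtain ⟨V, hV, hVy⟩ := L2 hY (fun p => {V | IsOpen V ∧ ∃ n l, p ≤ n ∧ ∀ y ∈ V,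
        (∀ x ∈ Subtype.val '' (a : Set S), (x, y) ∈ U n (g n)) ∧
        ∀ x : ℕ → Bool, (∀ i, n ≤ i → i < l → x i = false) → (x, y) ∈ U n (g n)})
      (fun p V hV => hV.1) (by
        intro p E hE
        obtain ⟨n, hn, hR⟩ := hg a p E hE
        obtain ⟨l, V, hV1, hV2, hV3⟩ := tube (ho n (g n)) n hE
          (fun t ht y hy => hR t (Or.inr ht) y hy)
        refine ⟨V ∩ {y | ∀ x ∈ Subtype.val '' (a : Set S), (x, y) ∈ U n (g n)},
          ⟨hV1.inter (hop _ (a.finite_toSet.image _) _ _), n, l, hn, fun y hy =>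
            ⟨hy.2, fun x hx => hV3 x hx y hy.1⟩⟩, fun y hy =>
            ⟨hV2 hy, fun x hx => hR x (Or.inl hx) y hy⟩⟩)
    choose _ nn l hnn hl using hV
    let q : ℕ → ℕ := fun k => Nat.rec 0 (fun _ r => max (l r) (r + 1)) k
    have hq1 : ∀ k, q (k + 1) = max (l (q k)) (q k + 1) := fun k => rfl
    have hq : StrictMono q := strictMono_nat_of_lt_succ fun k => by rw [hq1]; omega
    obtain ⟨d, hd, hdq⟩ := exists_strictMono_ge fun i => q (i + i * i + 1)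
    obtain ⟨S', hS'1, hS'2, hS'3⟩ := hX.2.2 d hd
    refine ⟨S', hS'1, hS'2, fun F' hF' hF'f E hE => ?_⟩
    obtain ⟨P, hP⟩ := eventually_atTop.1 ((eventually_all_finite hE).2 fun y _ => hVy y)
    rcases F'.eq_empty_or_nonempty with rfl | hne
    · refine ⟨nn P, fun x hx y hy => (hl P y (hP P le_rfl y hy)).1 x ?_⟩
      simpa using hx
    obtain ⟨i, hi, hi2⟩ := (frequently_atTop.1 (hS'3 F' hF'f hne hF')) (max P hF'f.toFinset.card)
    obtain ⟨k, hk, hk2⟩ := gap q hq F' hF'f (fun x hx => hX.1 x (hF' hx).1) i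
      (le_of_max_le_right hi) (fun x hx => (hdq i).trans (hi2 x hx))
    have hPk : P ≤ q k := ((le_of_max_le_left hi).trans hk).trans (hq.id_le k)
    refine ⟨nn (q k), ?_⟩
    rintro x (hx | hx) y hy
    · exact (hl _ y (hP _ hPk y hy)).1 x hx
    · refine (hl _ y (hP _ hPk y hy)).2 x fun s h1 h2 => hk2 x hx s ((hnn _).trans h1) ?_
      rw [hq1]
      omega
  choose S' hS'1 hS'2 hS'3 using h2
  refine ⟨g, ⋃ a, S' a, iUnion_subset hS'1,
    (Cardinal.card_iUnion_lt_iff_forall_of_isRegular hκ hD).2 hS'2, ?_⟩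
  intro F hF hFf F' hF' hF'f E hE
  have hfa : (Subtype.val ⁻¹' F : Set S).Finite := hFf.preimage Subtype.val_injective.injOn
  obtain ⟨n, hn⟩ := hS'3 hfa.toFinset F'
    (fun x hx => ⟨(hF' hx).1, fun h => (hF' hx).2 (mem_iUnion.2 ⟨_, h⟩)⟩) hF'f E hE
  refine ⟨n, ?_⟩
  rintro x (hx | hx) y hy
  · exact hn x (Or.inl ⟨⟨x, hF hx⟩, by simpa using hx, rfl⟩) y hy
  · exact hn x (Or.inr hx) y hy

lemma uncountable_of {κ : Cardinal.{0}} (hκ : κ.IsRegular) {X : Set (ℕ → Bool)}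
    (hX : FinUnbounded κ X) : ℵ₀ < κ := by
  refine lt_of_le_of_ne hκ.aleph0_le fun h => ?_
  subst h
  haveI : Infinite X := Cardinal.aleph0_le_mk_iff.1 hX.2.1
  let e := Infinite.natEmbedding X
  obtain ⟨d, hd, hdq⟩ := exists_strictMono_ge fun n => 1 + ∑ k ∈ Finset.range (n + 1), enum (e k) n
  obtain ⟨S, -, hS2, hS3⟩ := hX.2.2 d hd
  have hSf : S.Finite := Cardinal.lt_aleph0_iff_set_finite.1 hS2
  have hinj : Function.Injective fun k => (e k : ℕ → Bool) :=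
    Subtype.val_injective.comp e.injective
  obtain ⟨k, hk⟩ := (hSf.preimage hinj.injOn).infinite_compl.nonempty
  obtain ⟨n, hn, hn2⟩ := frequently_atTop.1 (hS3 {(e k : ℕ → Bool)} (finite_singleton _)
    (singleton_nonempty _) (by rintro _ rfl; exact ⟨(e k).2, hk⟩)) k
  have h1 := hn2 _ rfl
  have h2 := hdq n
  have h3 : enum (e k) n ≤ ∑ k ∈ Finset.range (n + 1), enum (e k) n :=
    Finset.single_le_sum (f := fun k => enum (e k) n) (fun _ _ => Nat.zero_le _)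
      (Finset.mem_range.2 (by omega))
  omega

lemma finSets_countable : FinSets.Countable := by
  refine (countable_iUnion fun n => (T_finite n).countable).mono fun x hx => ?_
  obtain ⟨n, hn⟩ := (show {i | x i = true}.Finite from hx).bddAbove
  refine mem_iUnion.2 ⟨n + 1, fun i hi => ?_⟩
  by_contra h
  have := hn (show x i = true by simpa using h)
  omega

lemma finSets_infinite : FinSets.Infinite := by
  refine infinite_of_injective_forall_mem (f := fun n i => decide (i = n)) ?_ fun n => ?_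
  · intro a b h
    simpa using congrFun h a
  · refine (finite_singleton n).subset fun i hi => ?_
    simpa using hi

lemma main {κ : Cardinal.{0}} (hκ : κ.IsRegular) {X : Set (ℕ → Bool)} (hX : FinUnbounded κ X)
    {Y : Type} [TopologicalSpace Y] [T1Space Y] [Infinite Y] (hY : GammaProperty Y)
    (hsel : Sel κ Y) : S1GammaOmega (↥(X ∪ FinSets) × Y) := by
  classical
  intro 𝒰 h𝒰
  have hinf : ∀ n, (𝒰 n \ {univ}).Infinite := fun n => (h𝒰 n).2.2.1.diff (finite_singleton _)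
  let e : ℕ → ℕ → Set (↥(X ∪ FinSets) × Y) := fun n m => (hinf n).natEmbedding _ m
  have he1 : ∀ n m, e n m ∈ 𝒰 n \ {univ} := fun n m => ((hinf n).natEmbedding _ m).2
  have he2 : ∀ n, Function.Injective (e n) := fun n =>
    Subtype.val_injective.comp ((hinf n).natEmbedding _).injective
  have hind : IsInducing (Prod.map (Subtype.val : ↥(X ∪ FinSets) → ℕ → Bool) (id : Y → Y)) :=
    IsInducing.subtypeVal.prodMap IsInducing.id
  have hlift : ∀ n m, ∃ U : Set ((ℕ → Bool) × Y), IsOpen U ∧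
      Prod.map Subtype.val id ⁻¹' U = e n m := fun n m =>
    hind.isOpen_iff.1 ((h𝒰 n).1 _ (he1 n m).1)
  choose U hUo hUe using hlift
  have hev : ∀ n, ∀ x ∈ X ∪ FinSets, ∀ y, ∀ᶠ m in atTop, (x, y) ∈ U n m := by
    intro n x hx y
    rw [← Nat.cofinite_eq_atTop]
    refine ((((h𝒰 n).2.2.2 (⟨x, hx⟩, y))).preimage (he2 n).injOn).subset fun m hm => ?_
    refine ⟨(he1 n m).1, fun h => hm ?_⟩
    rw [← hUe] at h
    exact h
  have hunc := uncountable_of hκ hX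
  let Good : Type := {S : Set (ℕ → Bool) // FinSets ⊆ S ∧ S ⊆ X ∪ FinSets ∧ #S < κ}
  have hstep : ∀ (j : ℕ) (S : Good), ∃ (g : ℕ → ℕ) (S' : Good), S.1 ⊆ S'.1 ∧
      ∀ F ⊆ S.1, F.Finite → ∀ F' ⊆ (X ∪ FinSets) \ S'.1, F'.Finite → ∀ E : Set Y, E.Finite →
        ∃ n, ∀ x ∈ F ∪ F', ∀ y ∈ E, (x, y) ∈ U (Nat.pair j n) (g n) := by
    intro j S
    obtain ⟨g, S', h1, h2, h3⟩ := step hκ hX hY hsel (fun n => U (Nat.pair j n))
      (fun n m => hUo _ _) (fun n => hev _) S.1 S.2.2.1 (finSets_infinite.mono S.2.1) S.2.2.2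
    refine ⟨g, ⟨S.1 ∪ S', S.2.1.trans subset_union_left,
      union_subset S.2.2.1 (h1.trans subset_union_left),
      (Cardinal.mk_union_le _ _).trans_lt (Cardinal.add_lt_of_lt hκ.aleph0_le S.2.2.2 h2)⟩,
      subset_union_left, fun F hF hFf F' hF' hF'f E hE => h3 F hF hFf F' ?_ hF'f E hE⟩
    intro x hx
    obtain ⟨h4, h5⟩ := hF' hx
    refine ⟨h4.resolve_right fun h => h5 (Or.inl (S.2.1 h)), fun h => h5 (Or.inr h)⟩
  choose G nx hnx hG using hstep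
  let S0 : Good := ⟨FinSets, subset_rfl, subset_union_right,
    (Cardinal.le_aleph0_iff_set_countable.2 finSets_countable).trans_lt hunc⟩
  let S : ℕ → Good := fun j => Nat.rec S0 (fun j s => nx j s) j
  have hS : ∀ j, S (j + 1) = nx j (S j) := fun j => rfl
  let g : ℕ → ℕ := fun n => G n.unpair.1 (S n.unpair.1) n.unpair.2
  have hcov : ∀ H : Set (↥(X ∪ FinSets) × Y), H.Finite → ∃ n, H ⊆ e n (g n) := by
    intro H hH
    let F : Set (ℕ → Bool) := (fun p => p.1.1) '' H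
    have hF : F.Finite := hH.image _
    have hst : ∃ j, F ∩ (S (j + 1)).1 ⊆ (S j).1 := by
      by_contra hc
      push Not at hc
      have hm : StrictMono fun j => F ∩ (S j).1 := strictMono_nat_of_lt_succ fun j => by
        refine lt_of_le_of_ne (inter_subset_inter_right _ (by rw [hS]; exact hnx j _)) fun h => ?_
        exact hc j (by rw [← h]; exact inter_subset_right)
      exact infinite_of_injective_forall_mem hm.injective (s := {t | t ⊆ F})
        (fun j => inter_subset_left) hF.finite_subsets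
    obtain ⟨j, hj⟩ := hst
    obtain ⟨n, hn⟩ := hG j (S j) (F ∩ (S j).1) inter_subset_right (hF.inter_of_left _)
      (F \ (S (j + 1)).1) (by
        rintro _ ⟨⟨p, -, rfl⟩, h⟩
        exact ⟨p.1.2, h⟩) hF.diff (Prod.snd '' H) (hH.image _)
    refine ⟨Nat.pair j n, fun p hp => ?_⟩
    rw [← hUe]
    have hpF : p.1.1 ∈ F := ⟨p, hp, rfl⟩
    have := hn p.1.1 (by
      by_cases h : p.1.1 ∈ (S (j + 1)).1
      · exact Or.inl ⟨hpF, hj ⟨hpF, h⟩⟩
      · exact Or.inr ⟨hpF, h⟩) p.2 ⟨p, hp, rfl⟩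
    simpa [g, Prod.map] using this
  refine ⟨fun n => e n (g n), fun n => (he1 n _).1, ?_, ?_, ?_, fun H hH => ?_⟩
  · rintro _ ⟨n, rfl⟩
    exact (h𝒰 n).1 _ (he1 n _).1
  · refine eq_univ_of_forall fun z => ?_
    obtain ⟨n, hn⟩ := hcov {z} (finite_singleton z)
    exact ⟨_, ⟨n, rfl⟩, hn rfl⟩
  · rintro ⟨n, hn⟩
    exact (he1 n _).2 hn
  · obtain ⟨n, hn⟩ := hcov H hH
    exact ⟨_, ⟨n, rfl⟩, hn⟩

/-- For regular `κ ≤ pr(S₁(Γ,Ω))`, a `κ`-fin-unbounded set `X` and a metrizable space `Y` with the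
`γ`-property, `(X ∪ Fin) × Y` satisfies `S₁(Γ,Ω)`.  For an arbitrary space `Y` with the
`γ`-property the same holds as soon as `D × Y` is `S₁(Γ,Ω)` for discrete `D` of size `< κ`. -/
theorem result (κ : Cardinal.{0}) (hκ : κ.IsRegular) (X : Set (ℕ → Bool))
    (hX : FinUnbounded κ X) (Y : Type) [TopologicalSpace Y] [T35Space Y] [Infinite Y]
    (hY : GammaProperty Y) :
    (LePr κ → TopologicalSpace.MetrizableSpace Y → S1GammaOmega (↥(X ∪ FinSets) × Y)) ∧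
    ((∀ (D : Type) [TopologicalSpace D] [DiscreteTopology D] [Infinite D], #D < κ →
        S1GammaOmega (D × Y)) → S1GammaOmega (↥(X ∪ FinSets) × Y)) := by
  refine ⟨fun hpr hM => main hκ hX hY (sel_of fun D _ _ _ hD => ?_),
    fun h => main hκ hX hY (sel_of h)⟩
  letI := TopologicalSpace.metrizableSpaceMetric Y
  exact hpr D hD Y (gamma_s1 hY)

end Pool.Agent.Results.MP_fc6768_gt.Metric
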